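import Pool.Agent.W292.RG.Stm

set_option autoImplicit false

namespace Pool.Agent.W460.RG

open Finset H331HC Pool.Agent.Helper879.ECD Pool.Agent.W292.RG

theorem REP : St_REP := by
  classical
  intro V _ _ G A
  rcases isEmpty_or_nonempty V with hV | hV
  · refine ⟨∅, by simp, ?_, by simp, by simp, fun x => hV.elim x⟩
    have h0 : {Z | OddComp Gᶜ A Z} = ∅ := by
      ext Z
      simp only [Set.mem_setOf_eq, Set.mem_empty_iff_false, iff_false]
      rintro ⟨⟨x, _⟩, _⟩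
      exact hV.elim x
    rw [h0]
    simp
  have hfin : {Z | OddComp Gᶜ A Z}.Finite := Set.toFinite _
  have hch : ∀ Z : Set V, OddComp Gᶜ A Z →
      ∃ x, x ∉ A ∧ Z = {y | (off Gᶜ A).Reachable x y} := fun Z hZ => hZ.1
  choose! x hx1 hx2 using hch
  have hmem : ∀ Z, OddComp Gᶜ A Z → ∀ y, y ∈ Z ↔ (off Gᶜ A).Reachable (x Z) y := by
    intro Z hZ y
    exact Set.ext_iff.mp (hx2 Z hZ) y
  have hinj : Set.InjOn x {Z | OddComp Gᶜ A Z} := by
    intro Z hZ Z' hZ' h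
    ext y
    rw [hmem Z hZ, hmem Z' hZ', h]
  refine ⟨hfin.toFinset.image x, ?_, ?_, ?_, ?_, ?_⟩
  · intro v hv
    obtain ⟨Z, hZ, rfl⟩ := Finset.mem_image.mp hv
    exact hx1 Z (hfin.mem_toFinset.mp hZ)
  · rw [Finset.card_image_of_injOn, Set.ncard_eq_toFinset_card _ hfin]
    rw [hfin.coe_toFinset]
    exact hinj
  · intro v hv
    obtain ⟨Z, hZ, rfl⟩ := Finset.mem_image.mp hv
    have hZ' : OddComp Gᶜ A Z := hfin.mem_toFinset.mp hZ
    have h := hZ'.2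
    rw [hx2 Z hZ'] at h
    exact h
  · intro s hs t ht hst
    obtain ⟨Z, hZ, rfl⟩ := Finset.mem_image.mp hs
    obtain ⟨Z', hZ', rfl⟩ := Finset.mem_image.mp ht
    have h1 : OddComp Gᶜ A Z := hfin.mem_toFinset.mp hZ
    have h2 : OddComp Gᶜ A Z' := hfin.mem_toFinset.mp hZ'
    have h3 : Z = Z' := OddComp.eq_of_mem h1 h2 (z := x Z') ((hmem Z h1 _).mpr hst)
      ((hmem Z' h2 _).mpr (SimpleGraph.Reachable.refl _))
    rw [h3]
  · intro v hv hodd
    have hZ : OddComp Gᶜ A {y | (off Gᶜ A).Reachable v y} := ⟨⟨v, hv, rfl⟩, hodd⟩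
    refine ⟨x {y | (off Gᶜ A).Reachable v y}, Finset.mem_image_of_mem _
      (hfin.mem_toFinset.mpr hZ), ?_⟩
    exact (hmem _ hZ _).mpr (SimpleGraph.Reachable.refl _)

end Pool.Agent.W460.RG
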